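import Pool.Agent.H61.KV.TN
import Pool.Agent.H70.LB.CS

/-!
# Module HAC of the board kv_modules: half-spaces which miss a minimal face
-/

set_option autoImplicit false

open Topology Set
open Pool.Agent.H59 Pool.Agent.H64.LB Pool.Agent.H61.KU Pool.Agent.H61.KV

namespace Pool.Agent.H58.KV

theorem pf_HAC (h1 : T_CNC) (h2 : T_P1N) (h3 : T_T3G) (h4 : T_XHO) (h5 : T_CS) (_h6 : T_EXP) :
    T_HAC := by
  intro V _ _ _ m hm p hp κ hκ
  obtain ⟨hCC, hspan, hmC, hm0, hMC, hMcl, hMs, hMF⟩ := h1 V m hm
  obtain ⟨hpath, hPt, hX1, hX3, hX5, -, -⟩ := h4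
  obtain ⟨-, α, hα, hαF⟩ := h2 V m hm p hp
  have hκc : Continuous (fun x => κ (m x)) :=
    (LinearMap.continuous_of_finiteDimensional κ).comp hm.cont
  have hp0 : p ≠ 0 := by
    rintro rfl
    obtain ⟨x⟩ := hpath.nonempty
    exact hp.2.1 ⟨0, x, le_rfl, by rw [zero_smul]⟩
  obtain ⟨x0, hx0⟩ := hMF p hp.1 hp0
  have hκ0 : κ (m x0) = 0 := hκ _ hx0
  have hκα : ∀ s, κ (m (α s)) = 0 := fun s => hκ _ (hαF s)
  have hinj : ∀ i, Function.Injective
      (HH.map (ZMod 2) i (inc {x : PN 2 | 0 < κ (m x)})) := by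
    have hW' : {x : PN 2 | 0 < κ (m x)} = {x | (-κ) (m x) < 0} := by
      ext x
      simp
    intro i
    rw [hW']
    exact hm.ot (-κ) i
  -- degree two
  have key : ∀ W : Set (PN 2), W = {x : PN 2 | 0 < κ (m x)} → ∀ z : HH (ZMod 2) 2 W,
      HH.map (ZMod 2) 2 (inc W) z = 0 := by
    intro W hW
    set F : Set (Set (PN 2)) := {U | ∃ ε : ℝ, 0 < ε ∧ U = {x | ε < κ (m x)}} with hF
    have hFo : ∀ U ∈ F, IsOpen U := by
      rintro U ⟨ε, hε, rfl⟩
      exact isOpen_lt continuous_const hκc
    have hFn : F.Nonempty := ⟨_, 1, one_pos, rfl⟩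
    have hFd : DirectedOn (· ⊆ ·) F := by
      rintro U ⟨ε, hε, rfl⟩ U' ⟨ε', hε', rfl⟩
      refine ⟨_, ⟨min ε ε', lt_min hε hε', rfl⟩, ?_, ?_⟩
      · intro x hx
        rw [mem_ofPred_eq] at hx ⊢
        exact lt_of_le_of_lt (min_le_left _ _) hx
      · intro x hx
        rw [mem_ofPred_eq] at hx ⊢
        exact lt_of_le_of_lt (min_le_right _ _) hx
    have hFW : W = ⋃₀ F := by
      rw [hW]
      ext x
      constructor
      · intro hx
        rw [mem_ofPred_eq] at hx
        refine ⟨_, ⟨κ (m x) / 2, half_pos hx, rfl⟩, ?_⟩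
        rw [mem_ofPred_eq]
        exact half_lt_self hx
      · rintro ⟨U, ⟨ε, hε, rfl⟩, hx⟩
        rw [mem_ofPred_eq] at hx ⊢
        exact hε.trans hx
    rw [hFW]
    intro z
    obtain ⟨U, hU, z', hz'⟩ := (h5 (ZMod 2) (PN 2) F hFo hFn hFd 2).1 z
    have hcomp : (inc (⋃₀ F)).comp (incS (subset_sUnion_of_mem hU)) = inc U := by
      ext x
      rfl
    rw [← hz', ← HH.map_comp, hcomp]
    obtain ⟨ε, hε, hUe⟩ := hU
    by_cases hUn : U = ∅
    · have hE : IsEmpty ↥U := isEmpty_coe_sort.2 hUn
      have := Pool.Agent.H70.LB.HH_of_isEmpty (ZMod 2) ↥U 2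
      rw [Subsingleton.elim z' 0, map_zero]
    · refine h3 α U ?_ ?_ hα z'
      · intro s hs
        rw [hUe] at hs
        have hs' : ε < κ (m (α s)) := hs
        rw [hκα s] at hs'
        exact lt_asymm hε hs'
      · by_contra hcon
        push Not at hcon
        have hSc : IsClosed {x : PN 2 | κ (m x) ≤ ε} := isClosed_le hκc continuous_const
        have hSo : IsOpen {x : PN 2 | κ (m x) ≤ ε} := by
          have : {x : PN 2 | κ (m x) ≤ ε} = {x | κ (m x) < ε} := by
            ext x
            constructor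
            · intro hx
              rw [mem_ofPred_eq] at hx
              have hxU : x ∉ U := by
                rw [hUe, mem_ofPred_eq]
                exact not_lt.2 hx
              obtain ⟨s, hs⟩ := hcon x hxU
              rw [← hs]
              change κ (m (α s)) < ε
              rw [hκα s]
              exact hε
            · intro hx
              rw [mem_ofPred_eq] at hx ⊢
              exact le_of_lt hx
          rw [this]
          exact isOpen_lt hκc continuous_const
        rcases isClopen_iff.1 ⟨hSc, hSo⟩ with h | h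
        · have : x0 ∈ {x : PN 2 | κ (m x) ≤ ε} := by
            change κ (m x0) ≤ ε
            rw [hκ0]
            exact hε.le
          rw [h] at this
          exact this
        · apply hUn
          rw [hUe, eq_empty_iff_forall_notMem]
          intro x hx
          have : x ∈ {x : PN 2 | κ (m x) ≤ ε} := by
            rw [h]
            trivial
          rw [mem_ofPred_eq] at hx this
          exact absurd hx (not_lt.2 this)
  refine ⟨hinj 0, ?_⟩
  intro q hq1 hq4
  have hsub : ∀ i, (∀ z, HH.map (ZMod 2) i (inc {x : PN 2 | 0 < κ (m x)}) z = 0) →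
      Subsingleton (HH (ZMod 2) i ↥{x : PN 2 | 0 < κ (m x)}) := by
    intro i hi
    refine ⟨fun a b => hinj i ?_⟩
    rw [hi, hi]
  interval_cases q
  · exact hsub 1 (fun z => Subsingleton.elim _ _)
  · exact hsub 2 (key _ rfl)
  · exact hsub 3 (fun z => Subsingleton.elim _ _)
  · refine hsub 4 (fun z => ?_)
    have hs : {x : PN 2 | 0 < κ (m x)} ⊆ ({x0} : Set (PN 2))ᶜ := by
      intro x hx hx'
      rw [mem_singleton_iff] at hx'
      rw [hx'] at hx
      have : 0 < κ (m x0) := hx
      rw [hκ0] at this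
      exact lt_irrefl _ this
    have hcomp : inc {x : PN 2 | 0 < κ (m x)} =
        (inc ({x0} : Set (PN 2))ᶜ).comp (incS hs) := by
      ext x
      rfl
    have := (hPt x0).2 4 le_rfl
    rw [hcomp, HH.map_comp, Subsingleton.elim (HH.map (ZMod 2) 4 (incS hs) z) 0, map_zero]

end Pool.Agent.H58.KV
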