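import Pool.Agent.H61.KV.TN

/-!
# Module P1N of the board kv_modules: minimal faces have rank 4
-/

set_option autoImplicit false

open Topology Set
open Pool.Agent.H59 Pool.Agent.H64.LB Pool.Agent.H61.KU Pool.Agent.H61.KV

namespace Pool.Agent.H58.KV

section cone

variable {V : Type} [NormedAddCommGroup V] [NormedSpace ℝ V]

/-- scaling the base point of a face -/
theorem Fc_smul {C : Set V} (p : V) (c : ℝ) (hc : 0 < c) :
    Fc C (c • p) = Fc C p := by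
  ext q
  constructor
  · rintro ⟨h1, a, ha, h2⟩
    refine ⟨h1, a * c, mul_nonneg ha hc.le, ?_⟩
    rwa [mul_smul]
  · rintro ⟨h1, a, ha, h2⟩
    refine ⟨h1, a / c, div_nonneg ha hc.le, ?_⟩
    rw [smul_smul, div_mul_cancel₀ _ hc.ne']
    exact h2

theorem Sp_smul {C : Set V} (p : V) (c : ℝ) (hc : 0 < c) :
    Sp C (c • p) = Sp C p := by
  unfold Sp
  rw [Fc_smul p c hc]

/-- scaling minimal points -/
theorem Ms_smul {m : PN 2 → V} (hC : IsCC (Cn m))
    (hM : ∀ c : ℝ, 0 ≤ c → ∀ p ∈ Mh m, c • p ∈ Mh m) {p : V} (hp : Ms m p) (c : ℝ) (hc : 0 < c) :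
    Ms m (c • p) := by
  obtain ⟨h1, h2, h3⟩ := hp
  refine ⟨hC.smul c hc.le p h1, ?_, ?_⟩
  · intro h
    apply h2
    have := hM c⁻¹ (inv_nonneg.2 hc.le) _ h
    rwa [smul_smul, inv_mul_cancel₀ hc.ne', one_smul] at this
  · intro q hq
    rw [Fc_smul p c hc] at hq
    rcases h3 q hq with h | h
    · left
      obtain ⟨h4, a, ha, h5⟩ := h
      refine ⟨hC.smul c hc.le p h1, c * a, mul_nonneg hc.le ha, ?_⟩
      rw [mul_smul, ← smul_sub]
      exact hC.smul c hc.le _ h5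
    · exact Or.inr h

end cone

theorem nontrivial_absurd {A B : Type} (h : Nontrivial A) (hB : Subsingleton B) (g : A → B)
    (hg : Function.Injective g) : False := by
  have := hg.subsingleton
  exact not_nontrivial A h

/-- the normalised case -/
theorem P1N_aux (h1 : T_FCB) (h2 : T_CNC) (h3 : T_LFM) (h4 : T_CRF) (h5 : T_TPS) (h6 : T_SPH)
    (h7 : T_XHO) (h8 : T_GAU) (V : Type) [NormedAddCommGroup V] [NormedSpace ℝ V]
    [FiniteDimensional ℝ V] (m : PN 2 → V) (hm : Cfg m) (e : V →ₗ[ℝ] ℝ)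
    (he : ∀ q ∈ Cn m, q ≠ 0 → 0 < e q) (p : V) (hp : Ms m p) (hep : e p = 1) :
    Module.finrank ℝ (Sp (Cn m) p) = 4 ∧
      ∃ α : C(Sph 2, PN 2), Function.Injective (HH.map (ZMod 2) 2 α) ∧
        ∀ u, m (α u) ∈ Fc (Cn m) p := by
  obtain ⟨hCC, hspan, hmC, hm0, hMC, hMcl, hMs, hMF⟩ := h2 V m hm
  obtain ⟨hpC, hpM, hpmin⟩ := hp
  obtain ⟨hpF, hFcc, -, -, -, -, -⟩ := h1 V (Cn m) p hCC hpC
  obtain ⟨hS1, -, -, z0, hz0, hz0'⟩ := h6
  obtain ⟨hpath, hPt, hX1, hX3, hX5, -, -⟩ := h7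
  have hp0 : p ≠ 0 := by
    rintro rfl
    rw [map_zero] at hep
    exact zero_ne_one hep
  have hpS : p ∈ Sp (Cn m) p := Submodule.subset_span hpF
  have hFS : ∀ q ∈ Fc (Cn m) p, q ∈ Sp (Cn m) p := fun q hq => Submodule.subset_span hq
  -- rank at least two
  have hr1 : 0 < Module.finrank ℝ (Sp (Cn m) p) := by
    rw [Module.finrank_pos_iff_exists_ne_zero]
    exact ⟨⟨p, hpS⟩, fun h => hp0 (congrArg Subtype.val h)⟩
  have hr2 : Module.finrank ℝ (Sp (Cn m) p) ≠ 1 := by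
    intro h
    obtain ⟨x, hx⟩ := hMF p hpC hp0
    have hne : (⟨p, hpS⟩ : Sp (Cn m) p) ≠ 0 := fun h => hp0 (congrArg Subtype.val h)
    obtain ⟨c, hc⟩ := (finrank_eq_one_iff_of_nonzero' _ hne).1 h ⟨m x, hFS _ hx⟩
    have hc' : c • p = m x := congrArg Subtype.val hc
    have hcpos : 0 < c := by
      have := he (m x) (hmC x) (hm0 x)
      rw [← hc', map_smul, hep, smul_eq_mul, mul_one] at this
      exact this
    apply hpM
    refine ⟨c⁻¹, x, inv_nonneg.2 hcpos.le, ?_⟩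
    rw [← hc', smul_smul, inv_mul_cancel₀ hcpos.ne', one_smul]
  obtain ⟨d, hd⟩ : ∃ d, Module.finrank ℝ (Sp (Cn m) p) = d + 2 :=
    ⟨Module.finrank ℝ (Sp (Cn m) p) - 2, by omega⟩
  obtain ⟨j, hj, hj0, hjS, hjE, hKc, hKv, h0K, hfr⟩ := h4 V (Cn m) e p d hCC he hpC hep hd
  set K : Set (Fin (d + 1) → ℝ) := j ⁻¹' Fc (Cn m) p with hK
  have hfrM : ∀ y ∈ frontier K, j y ∈ Fc (Cn m) p ∧ j y ∈ Mh m ∧ j y ≠ 0 := by
    intro y hy
    obtain ⟨hy1, hy2⟩ := hfr y hy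
    refine ⟨hy1, ?_, ?_⟩
    · rcases hpmin (j y) hy1 with h | h
      · exact absurd h hy2
      · exact h (h1 V (Cn m) (j y) hCC hy1.1).1
    · intro h
      have := (hjS y).2
      rw [h, map_zero] at this
      exact zero_ne_one this
  obtain ⟨hg1, hg2, hg3, -, -, -⟩ := h8 (Fin (d + 1) → ℝ) K hKc hKv h0K
  have hjc : Continuous j := AffineMap.continuous_of_finiteDimensional j
  have hrc : Continuous (fun u : Sph d => rad K u.1) := by
    have e1 : Continuous (fun u : Sph d => gauge K u.1) := hg2.comp continuous_subtype_val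
    have e2 : Continuous (fun u : Sph d => (gauge K u.1)⁻¹) :=
      e1.inv₀ (fun u => (hg1 u.1 u.2).ne')
    have e3 : Continuous (fun u : Sph d => u.1) := continuous_subtype_val
    exact e2.smul e3
  obtain ⟨α, hα⟩ := h3 V m hm (Sph d) (fun u => j (rad K u.1)) (hjc.comp hrc)
    (fun u => ⟨(hfrM _ (hg3 u.1 u.2)).2.1, (hfrM _ (hg3 u.1 u.2)).2.2⟩)
  have hα' : ∀ u, ∃ c : ℝ, 0 < c ∧ m (α u) = c • j (rad K u.1) := by
    intro u
    obtain ⟨c, hc, hc2⟩ := hα u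
    refine ⟨c⁻¹, inv_pos.2 hc, ?_⟩
    rw [hc2, smul_smul, inv_mul_cancel₀ hc.ne', one_smul]
  have hαF : ∀ u, m (α u) ∈ Fc (Cn m) p := by
    intro u
    obtain ⟨c, hc, hc2⟩ := hα' u
    rw [hc2]
    exact hFcc.smul c hc.le _ (hfrM _ (hg3 u.1 u.2)).1
  have hinj : ∀ i, Function.Injective (HH.map (ZMod 2) i α) :=
    h5 V m hm e p d j α he hpC hpM hep hj hj0 hjS hjE hKc hKv h0K hα'
  clear_value K
  -- the cases
  match d, hd, α, hαF, hinj with
  | 0, _, α, _, hinj =>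
    exfalso
    apply hz0
    apply hinj 0
    rw [hz0' (PN 2) α, map_zero]
  | 1, _, α, _, hinj => exact (nontrivial_absurd (hS1 1) hX1 _ (hinj 1)).elim
  | 2, hd, α, hαF, hinj => exact ⟨hd, α, hinj 2, hαF⟩
  | 3, _, α, _, hinj => exact (nontrivial_absurd (hS1 3) hX3 _ (hinj 3)).elim
  | 4, hd, α, hαF, hinj =>
    exfalso
    by_cases hsur : ∀ x, ∃ u, α u = x
    · have htop : Sp (Cn m) p = ⊤ := by
        rw [eq_top_iff, ← hm.span, Submodule.span_le]
        rintro _ ⟨x, rfl⟩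
        obtain ⟨u, rfl⟩ := hsur x
        exact hFS _ (hαF u)
      rw [htop, finrank_top, hm.rank] at hd
      omega
    · push Not at hsur
      obtain ⟨y0, hy0⟩ := hsur
      have hαy : ∀ u, α u ∈ ({y0} : Set (PN 2))ᶜ := by
        intro u hu
        rw [mem_singleton_iff] at hu
        exact hy0 u hu
      set α' : C(Sph 4, ↥(({y0} : Set (PN 2))ᶜ)) := ⟨fun u => ⟨α u, hαy u⟩,
        α.continuous.subtype_mk _⟩ with hα'
      have hcomp : α = (inc ({y0} : Set (PN 2))ᶜ).comp α' := by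
        ext u
        rfl
      have hsub : Subsingleton (HH (ZMod 2) 4 ↥(({y0} : Set (PN 2))ᶜ)) := (hPt y0).2 4 le_rfl
      have hinj' : Function.Injective (HH.map (ZMod 2) 4 α') := by
        intro a b hab
        apply hinj 4
        rw [hcomp, HH.map_comp, HH.map_comp, hab]
      exact nontrivial_absurd (hS1 4) hsub _ hinj'
  | d + 5, _, α, _, hinj =>
    exact (nontrivial_absurd (hS1 (d + 5)) (hX5 (d + 5) (by omega)) _ (hinj (d + 5))).elim

theorem pf_P1N (h1 : T_FCB) (h2 : T_CNC) (h3 : T_LFM) (h4 : T_CRF) (h5 : T_TPS) (h6 : T_SPH)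
    (h7 : T_XHO) (h8 : T_GAU) : T_P1N := by
  intro V _ _ _ m hm p hp
  obtain ⟨hCC, hspan, hmC, hm0, hMC, hMcl, hMs, hMF⟩ := h2 V m hm
  obtain ⟨e, he⟩ := hCC.pos
  have hpath := h7.1
  have hp0 : p ≠ 0 := by
    rintro rfl
    obtain ⟨x⟩ := hpath.nonempty
    exact hp.2.1 ⟨0, x, le_rfl, by rw [zero_smul]⟩
  have hep : 0 < e p := he p hp.1 hp0
  have hc : 0 < (e p)⁻¹ := inv_pos.2 hep
  have h := P1N_aux h1 h2 h3 h4 h5 h6 h7 h8 V m hm e he ((e p)⁻¹ • p)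
    (Ms_smul hCC hMs hp _ hc) (by rw [map_smul, smul_eq_mul, inv_mul_cancel₀ hep.ne'])
  rw [Sp_smul p _ hc, Fc_smul p _ hc] at h
  exact h

end Pool.Agent.H58.KV
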