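import Pool.Agent.H61.KV.TE
import Pool.Agent.H61.KV.TS

/-!
# Module RK4 of the board kv_modules: the face of `γ + t` is minimal
-/

set_option autoImplicit false

open Topology Set
open Pool.Agent.H59 Pool.Agent.H64.LB Pool.Agent.H61.KU Pool.Agent.H61.KV

namespace Pool.Agent.H58.KV

/-- the dimension count -/
theorem RK4_dim {V : Type} [NormedAddCommGroup V] [NormedSpace ℝ V] [FiniteDimensional ℝ V]
    (S S' S'' : Submodule ℝ V) (t t₂ γ : V) (hV : Module.finrank ℝ V = 9)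
    (hS : Module.finrank ℝ S = 4) (hS' : 5 ≤ Module.finrank ℝ S')
    (hS'' : 4 ≤ Module.finrank ℝ S'') (ht : t ≠ 0) (ht₂ : t₂ ≠ 0) (hγ : γ ≠ 0)
    (h1 : ∀ v ∈ S, v ∈ S' → ∃ c : ℝ, v = c • t) (h2 : ∀ v ∈ S, v ∈ S'' → ∃ c : ℝ, v = c • t₂)
    (h3 : ∀ v ∈ S', ∀ v₂ ∈ S'', v - v₂ ∈ S → ∃ c : ℝ, v - c • γ ∈ S) : False := by
  have e1 := Submodule.finrank_sup_add_finrank_inf_eq S S'
  have e2 := Submodule.finrank_sup_add_finrank_inf_eq S S''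
  have e3 := Submodule.finrank_sup_add_finrank_inf_eq (S ⊔ S') (S ⊔ S'')
  have e4 := Submodule.finrank_sup_add_finrank_inf_eq S (Submodule.span ℝ {γ})
  have f1 : Module.finrank ℝ ↥(S ⊓ S') ≤ 1 := by
    rw [← finrank_span_singleton (K := ℝ) ht]
    refine Submodule.finrank_mono ?_
    intro v hv
    obtain ⟨c, hc⟩ := h1 v hv.1 hv.2
    rw [hc]
    exact Submodule.smul_mem _ _ (Submodule.mem_span_singleton_self t)
  have f2 : Module.finrank ℝ ↥(S ⊓ S'') ≤ 1 := by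
    rw [← finrank_span_singleton (K := ℝ) ht₂]
    refine Submodule.finrank_mono ?_
    intro v hv
    obtain ⟨c, hc⟩ := h2 v hv.1 hv.2
    rw [hc]
    exact Submodule.smul_mem _ _ (Submodule.mem_span_singleton_self t₂)
  have f3 : Module.finrank ℝ ↥((S ⊔ S') ⊔ (S ⊔ S'')) ≤ 9 := by
    rw [← hV]
    exact Submodule.finrank_le _
  have f4 : Module.finrank ℝ ↥((S ⊔ S') ⊓ (S ⊔ S'')) ≤
      Module.finrank ℝ ↥(S ⊔ Submodule.span ℝ {γ}) := by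
    refine Submodule.finrank_mono ?_
    rintro x ⟨hx1, hx2⟩
    obtain ⟨s, hs, v, hv, hx⟩ := Submodule.mem_sup.1 hx1
    obtain ⟨s₂, hs₂, v₂, hv₂, hx'⟩ := Submodule.mem_sup.1 hx2
    have hd : v - v₂ = s₂ - s := by
      have : s + v = s₂ + v₂ := hx.trans hx'.symm
      have h5 : v = s₂ + v₂ - s := by rw [← this]; abel
      rw [h5]
      abel
    obtain ⟨c, hc⟩ := h3 v hv v₂ hv₂ (by rw [hd]; exact S.sub_mem hs₂ hs)
    have h6 : x = (s + (v - c • γ)) + c • γ := by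
      rw [← hx]
      abel
    rw [h6]
    exact Submodule.add_mem_sup (S.add_mem hs hc)
      (Submodule.smul_mem _ _ (Submodule.mem_span_singleton_self γ))
  have f5 := finrank_span_singleton (K := ℝ) hγ
  omega

theorem pf_RK4 (h1 : T_FCB) (h2 : T_CNC) (h3 : T_ST) (h4 : T_STJ) (h5 : T_FTU) (h6 : T_FTR)
    (h7 : T_EBD) (h8 : T_CMN) (h9 : T_MNS) (h10 : T_P1N) (h11 : T_TWB) (h12 : T_SPX)
    (h13 : T_RNK) (h14 : T_SPP) (_h15 : T_EXP) : T_RK4 := by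
  intro V _ _ _ m hm hns p γ t hp hfoot hov hbd
  obtain ⟨hCC, hspan, hmC, hm0, hMC, hMcl, hMs, hMF⟩ := h2 V m hm
  have hpC : p ∈ Cn m := hp.1
  have hrS : Module.finrank ℝ (Sp (Cn m) p) = 4 := (h10 V m hm p hp).1
  obtain ⟨hU1, hU2, hU3, hU4⟩ := h5 V (Cn m) p hCC hpC
  have hγC : γ ∈ Cn m := (hU1 γ γ hfoot).1
  have hγ0 : γ ≠ 0 := by
    rintro rfl
    have hne : Sp (Cn m) p ≠ ⊤ := by
      intro h
      rw [h, finrank_top, hm.rank] at hrS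
      omega
    obtain ⟨ξ, hξ0, hξ1, hξ2⟩ := h14 V (Cn m) p hCC hspan hpC hne
    exact hξ0 (hov ξ hξ1 hξ2 (map_zero ξ))
  -- step 1
  have hA : ∀ t', Bd (Cn m) p t' → γ + t' ∉ Mh m := by
    intro t' ht' hM
    have hO : Ov (Cn m) p (γ + t') := by
      intro ξ hξ1 hξ2 hξ3
      refine hov ξ hξ1 hξ2 ?_
      rw [map_add] at hξ3
      have e1 := hξ1 γ hγC
      have e2 := hξ1 t' ht'.1.1
      linarith
    have hF := h4 V m hm p hp (γ + t') hM hO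
    have he := hU3 (γ + t') γ (γ + t') γ (by
      rw [add_sub_cancel_left]
      exact Submodule.subset_span ht'.1) hF hfoot
    exact ht'.2.1 (by simpa using he)
  have hB : ∀ t', Bd (Cn m) p t' → ∃ p₁ ∈ Fc (Cn m) (γ + t'), Ms m p₁ ∧
      Module.finrank ℝ (Sp (Cn m) p₁) = 4 ∧ Sp (Cn m) p₁ ≤ Sp (Cn m) (γ + t') ∧
      (γ + t' ∈ Fc (Cn m) p₁ ∨
        Module.finrank ℝ (Sp (Cn m) p₁) < Module.finrank ℝ (Sp (Cn m) (γ + t'))) := by
    intro t' ht'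
    have hC' : γ + t' ∈ Cn m := hCC.add γ hγC t' ht'.1.1
    have hn : ¬ Fc (Cn m) (γ + t') ⊆ Mh m := fun h =>
      hA t' ht' (h (h1 V (Cn m) (γ + t') hCC hC').1)
    obtain ⟨p₁, hp₁, hm₁⟩ := h9 V m hm (γ + t') hC' hn
    obtain ⟨g1, g2⟩ := h13 V (Cn m) (γ + t') p₁ hCC hC' hp₁
    exact ⟨p₁, hp₁, hm₁, (h10 V m hm p₁ hm₁).1, g1, g2⟩
  have hB' : ∀ t', Bd (Cn m) p t' → 4 ≤ Module.finrank ℝ (Sp (Cn m) (γ + t')) := by
    intro t' ht'
    obtain ⟨p₁, -, -, h, hle, -⟩ := hB t' ht'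
    rw [← h]
    exact Submodule.finrank_mono hle
  have hX : ∀ t', Bd (Cn m) p t' → ∀ v ∈ Sp (Cn m) p, v ∈ Sp (Cn m) (γ + t') →
      ∃ c : ℝ, v = c • t' := by
    intro t' ht'
    have hC' : γ + t' ∈ Cn m := hCC.add γ hγC t' ht'.1.1
    refine h12 V (Cn m) p (γ + t') t' hCC hpC hC' (fun q hq => h3 V m hm p hp q hq) ?_
    intro r hr hr'
    have := (h6 V (Cn m) p γ t' hCC hpC hγC ht'.1 hfoot).2.2 r hr hr'
    exact (h7 V m hm hns p t' hp ht').2.2 r this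
  -- step 2
  have hr4 : Module.finrank ℝ (Sp (Cn m) (γ + t)) = 4 := by
    by_contra hne
    have h5' : 5 ≤ Module.finrank ℝ (Sp (Cn m) (γ + t)) := by
      have := hB' t hbd
      omega
    obtain ⟨t₂, ht₂, hts⟩ := h11 V (Cn m) p t hCC hpC (by omega)
    refine RK4_dim (Sp (Cn m) p) (Sp (Cn m) (γ + t)) (Sp (Cn m) (γ + t₂)) t t₂ γ hm.rank hrS h5'
      (hB' t₂ ht₂) hbd.2.1 ht₂.2.1 hγ0 (hX t hbd) (hX t₂ ht₂) ?_
    intro v hv v₂ hv₂ hvv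
    exact h8 V m hm hns p γ t t₂ v v₂ hp hfoot hγ0 hbd ht₂ hts hv hv₂ hvv
  -- step 3
  obtain ⟨p₁, hp₁, hm₁, hr₁, -, halt⟩ := hB t hbd
  have hin : γ + t ∈ Fc (Cn m) p₁ := by
    rcases halt with h | h
    · exact h
    · omega
  have hC' : γ + t ∈ Cn m := hCC.add γ hγC t hbd.1.1
  have hEq : Fc (Cn m) p₁ = Fc (Cn m) (γ + t) :=
    (h1 V (Cn m) (γ + t) hCC hC').2.2.2.2.2.2 p₁ hp₁ hin
  refine ⟨hC', hA t hbd, ?_⟩
  intro q hq
  rw [← hEq] at hq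
  rcases hm₁.2.2 q hq with h | h
  · left
    exact (h1 V (Cn m) q hCC hq.1).2.2.2.1 p₁ h hin
  · exact Or.inr h

end Pool.Agent.H58.KV
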